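import Pool.Agent.H42.S6C.Defs

/-!
# Implicit labels on stable events

In a class with implicit labels on events of arbitrarily small cost, the stable events themselves
have implicit labels.
-/

set_option autoImplicit false

namespace Pool.S6C.Lbw

open Finset Real MvPolynomial
open Pool.Agent.H49.Ent Pool.Agent.H32.Dense Pool.STK Pool.KA Pool.KSAT Pool.K2S Pool.PB Pool.KS6

theorem ciq_hered {J : ℕ} (F : Fam 3 J) (Qt : ℕ) (i₀ : Fin 3) (w lam J' D P : ℕ) :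
    Hered (CIQ F Qt i₀ w lam J' D P) := by
  rintro A B hB ⟨hJ, g, n, h1, ⟨φ, h2⟩, h3, ⟨φ', h4⟩, i₁, h5⟩
  exact ⟨hJ, g, n, fun ω hω => h1 ω (hB ω hω), ⟨φ, fun ω hω => h2 ω (hB ω hω)⟩, h3,
    ⟨φ', fun ω hω => h4 ω (hB ω hω)⟩, i₁,
    ClG.hered (Fam.zm F w J' hJ (Box.plkC lam i₀) g) _ _ _ _ _ A B hB h5⟩

/-- Implicit labels on the stable events. -/
theorem ci_exact {S : PCl 3} {i₀ : Fin 3} {Q : ℝ} {w : ℚ} {v : ℝ} {D : ℕ} {p : ℝ}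
    (h : CI S i₀ Q w v D p) : ∃ z₀ : ℝ, 0 < z₀ ∧ ∀ ζ : ℝ, 0 < ζ → ζ ≤ z₀ →
    Clp S (fun J F A => CIQ F ⌊Q * J⌋₊ i₀ ⌊w * J⌋₊ ⌊(v - ζ) * J⌋₊
      (⌊Q * J⌋₊ - ⌊w * J⌋₊ - ⌊(v - ζ) * J⌋₊) D ⌊p * J⌋₊ A) := by
  obtain ⟨z₀, hz₀, h⟩ := h
  refine ⟨z₀, hz₀, fun ζ h1 h2 => ?_⟩
  refine Clp.step ⟨1, fun J F _ => CIQ F ⌊Q * J⌋₊ i₀ ⌊w * J⌋₊ ⌊(v - ζ) * J⌋₊
      (⌊Q * J⌋₊ - ⌊w * J⌋₊ - ⌊(v - ζ) * J⌋₊) D ⌊p * J⌋₊,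
    fun J F _ => ciq_hered F _ _ _ _ _ _ _⟩ fun κ hκ => ?_
  refine Clp.mono (J₂ := 0) (h ζ κ h1 h2 hκ) ?_
  rintro J - F A ⟨B, hB, hPB, hc⟩ hSb
  rcases hSb 0 with h3 | h3
  · exact h3
  · exact absurd hc (h3 B hB hPB)

end Pool.S6C.Lbw
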