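import Pool.Agent.H26.LBW.Lbw
import Pool.Agent.H57.LBW.Fin

/-!
# LBW
-/

set_option autoImplicit false

namespace Pool.S6C

/-- **(LBW)** -/
theorem lbw_thm : LBWStmt := lbw_of Pool.LBW.cnt_thm

end Pool.S6C
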