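import Pool.Agent.H39.S6C.Bct

/-!
# Lemma B with boxes which are not complete

If the boxes of the frames of the row `Q` at the window `v` are complete up to `E`, i.e.
`Q ≤ v + rot v + E`, then the directions cannot turn faster than `4 a / R` on the windows above
`v`, up to `E`.
-/

set_option autoImplicit false

namespace Pool.S6C.Lbw

open Finset Real
open Pool.Agent.H49.Ent Pool.Agent.H32.Dense Pool.STK Pool.KA Pool.KSAT Pool.K2S Pool.PB Pool.KS6
open Pool.S6K.Wfe Pool.K3 Pool.S6C.Bct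

/-- **(BCT)** for the rows of a class, with boxes which are complete up to `E`. -/
theorem bct_gen {S : PCl 3} {a R h₁ : ℝ} {i₀ : Fin 3} {c s₂ : ℝ} {r : ℝ → ℝ} {D : Set ℝ}
    {σ : ℝ → Row} (hC : Cs S a R h₁ i₀ c s₂ r D σ) {Q : ℝ} (hQ1 : Q ≤ 1)
    {ρ : Row} (hρ : Rw S i₀ Q ρ) {v y : ℚ} (hy : 0 < y) (hyv : y < v) (hv1 : v ≤ 1)
    {E : ℝ} (hE : 0 ≤ E) (hQv : Q ≤ (v : ℝ) + ρ.rot v + E) :
    ρ.rot v - 4 * a / R * (y + E) ≤ ρ.rot (v - y) := by
  classical
  have ha1 := hC.a1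
  have hR0 := hC.R0
  have hy0 : (0 : ℝ) < y := by exact_mod_cast hy
  have hyv' : (y : ℝ) < v := by exact_mod_cast hyv
  have hv1' : (v : ℝ) ≤ 1 := by exact_mod_cast hv1
  have hv0 : 0 < v := hy.trans hyv
  have hvy0 : 0 ≤ v - y := by linarith
  have hvy1 : v - y ≤ 1 := by linarith
  obtain ⟨s, hs⟩ : ∃ s, s = ρ.rot v := ⟨_, rfl⟩
  have hs1 : s ≤ 1 := by
    rw [hs]
    exact num_le_cap hC.ne zero_le_one (hρ.rot v hv0.le hv1)
  obtain ⟨t, ht⟩ : ∃ t, t = ρ.rot (v - y) := ⟨_, rfl⟩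
  have ht0 : 0 ≤ t := by
    rw [ht]
    exact num_nonneg hC.ne (hρ.rot _ hvy0 hvy1)
  obtain ⟨Cc, hCc⟩ : ∃ Cc, Cc = 4 * a / R := ⟨_, rfl⟩
  have hCc0 : 0 < Cc := by rw [hCc]; positivity
  have hCR : R / a * Cc = 4 := by
    rw [hCc]
    field_simp
  rw [← hs, ← ht, ← hCc]
  by_contra hcon
  push Not at hcon
  have hyE : 0 < (y : ℝ) + E := by linarith
  have hCy0 : 0 < Cc * (y + E) := by positivity
  obtain ⟨g, hg⟩ : ∃ g, g = (t + (s - Cc * (y + E))) / 2 := ⟨_, rfl⟩
  have hgt : t < g := by rw [hg]; linarith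
  have hg0 : 0 < g := by linarith
  obtain ⟨D0, hD0⟩ : ∃ D0, D0 = s - Cc * (y + E) - g := ⟨_, rfl⟩
  have hD00 : 0 < D0 := by rw [hD0, hg]; linarith
  obtain ⟨ε, hε⟩ : ∃ ε : ℝ, ε = min (D0 / 8) ((y : ℝ) / 8) := ⟨_, rfl⟩
  have hε0 : 0 < ε := by rw [hε]; exact lt_min (by linarith) (by linarith)
  have hεD : ε ≤ D0 / 8 := by rw [hε]; exact min_le_left _ _
  have hεy : ε ≤ y / 8 := by rw [hε]; exact min_le_right _ _
  have hyE : 0 < (y : ℝ) + E := by linarith
  have hCy : 0 < Cc * (y + E) := hCy0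
  obtain ⟨m0, hm0⟩ : ∃ m0, m0 = min (s - ε) h₁ := ⟨_, rfl⟩
  have hm00 : 0 < m0 := by
    rw [hm0]
    exact lt_min (by linarith) hC.h₁0
  have hm0s : m0 ≤ s - ε := by rw [hm0]; exact min_le_left _ _
  have hm0h : m0 ≤ h₁ := by rw [hm0]; exact min_le_right _ _
  have hm01 : m0 ≤ 1 := by linarith
  obtain ⟨K, hK⟩ := exists_nat_gt (16 / D0)
  obtain ⟨N, vn, yn, hKN, hN0, hvn, hyn⟩ := exists_grid hy hyv K
  have hNr : (0 : ℝ) < N := by exact_mod_cast hN0
  have hN16 : 16 < D0 * N := by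
    have h1 : 16 / D0 < N := hK.trans_le (by exact_mod_cast hKN)
    rw [div_lt_iff₀ hD00] at h1
    linarith
  have hvN : (vn : ℝ) = v * N := by rw [hvn]; field_simp
  have hyN : (yn : ℝ) = y * N := by rw [hyn]; field_simp
  have hvnN : vn ≤ N := by
    have : (vn : ℝ) ≤ N := by
      rw [hvN]
      nlinarith
    exact_mod_cast this
  have hynvn : yn ≤ vn := by
    have : (yn : ℝ) ≤ vn := by
      rw [hvN, hyN]
      exact mul_le_mul_of_nonneg_right hyv'.le hNr.le
    exact_mod_cast this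
  obtain ⟨j, hj⟩ : ∃ j, j = ⌊(s - 2 * ε) * N⌋₊ := ⟨_, rfl⟩
  obtain ⟨b, hb⟩ : ∃ b, b = ⌈Cc * (y + E) * N⌉₊ := ⟨_, rfl⟩
  have hs2 : 0 < s - 2 * ε := by linarith
  have hj1 : (j : ℝ) ≤ (s - 2 * ε) * N := by rw [hj]; exact Nat.floor_le (by positivity)
  have hj2 : (s - 2 * ε) * N < j + 1 := by rw [hj]; exact Nat.lt_floor_add_one _
  have hb1 : Cc * (y + E) * N ≤ b := by rw [hb]; exact Nat.le_ceil _
  have hb2 : (b : ℝ) < Cc * (y + E) * N + 1 := by rw [hb]; exact Nat.ceil_lt_add_one (by positivity)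
  have hjb : (g + D0 / 2) * N ≤ (j : ℝ) - b := by
    have h1 : (s - 2 * ε) * N - Cc * (y + E) * N = (g + D0 - 2 * ε) * N := by
      rw [hD0]
      ring
    have h2 : (g + 3 / 4 * D0) * N ≤ (g + D0 - 2 * ε) * N :=
      mul_le_mul_of_nonneg_right (by linarith) hNr.le
    have h3 : (g + 3 / 4 * D0) * N = (g + D0 / 2) * N + D0 * N / 4 := by ring
    linarith
  have hbj : b ≤ j := by
    have : (b : ℝ) ≤ j := by
      have : 0 < (g + D0 / 2) * N := by positivity
      linarith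
    exact_mod_cast this
  have hjN : j < N := by
    have : (j : ℝ) < N := by
      have h1 : (s - 2 * ε) * N < 1 * N := mul_lt_mul_of_pos_right (by linarith) hNr
      linarith
    exact_mod_cast this
  have hbN : b < N := lt_of_le_of_lt hbj hjN
  have hQJ : ∀ J : ℕ, ⌊Q * J⌋₊ ≤ J := by
    intro J
    have : Q * J ≤ 1 * J := mul_le_mul_of_nonneg_right hQ1 (Nat.cast_nonneg J)
    rw [one_mul] at this
    exact (Nat.floor_le_floor this).trans (Nat.floor_natCast J).le
  have h2N : (1 : ℝ) ≤ 5 * 2 ^ N := by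
    have : (1 : ℝ) ≤ 2 ^ N := one_le_pow₀ (by norm_num)
    linarith
  -- the claims
  have k1 := (hρ.rot v hv0.le hv1).1 ε hε0
  rw [← hs] at k1
  obtain ⟨τ, hτ, J₁, hsp⟩ := spread_part hC.a1 hC.R0 hC.ub hC.st hC.lb
    (by positivity : 0 < m0 / 8)
  have k3 : Clp S (fun J F A => (0 < Pe F.p A ∧ Lb F i₀ ⌊h₁ * J⌋₊ A) ∧
      ∀ q : ℕ, q ≤ J → m0 / 8 * J ≤ q → q + 2 ≤ ⌊h₁ * J⌋₊ →
        ∃ B : F.Ω → Prop, Sub B A ∧ Real.exp (-Real.log 2) * Pe F.p A ≤ Pe F.p B ∧
        ∀ ω, B ω → ∃ ω' ω'', B ω' ∧ B ω'' ∧ Fam.pt F ω' = Fam.pt F ω ∧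
          Fam.pt F ω'' = Fam.pt F ω ∧ 1 / 2 ^ (q + 1) ≤ |F.d ω' i₀ - F.d ω'' i₀|) :=
    Clp.base τ hτ J₁ fun J hJ F A hS =>
      ⟨⟨lt_of_lt_of_le (Real.exp_pos _) (hC.st _ _ _ _ hS).2.2.2, hC.lb _ _ _ _ hS⟩,
        hsp J hJ F A hS⟩
  have k4 := (clp_of_claim hC.st (labq_thm 3 a R hC.a1.le hC.R0 hC.ub (m0 / 2) ((y : ℝ) / 4)
    (5 * 2 ^ N) (by positivity) (by positivity) h2N N i₀ (Equiv.swap 0 i₀)
    (Equiv.swap 0 i₀).surjective j b vn yn hbj hbN hvnN hynvn (fun J => ⌊Q * J⌋₊) hQJ)).ev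
    (ϖ := 1 / 2) (by norm_num)
  have k5 := (wfe_cls (S := S) (i₀ := i₀) hC.a1.le hC.R0 hC.ub hC.h₁0 hC.st hC.lb
    (η := (y : ℝ) / 4) (by positivity) 5 2 (3 * (3 * Real.log (2 * (2 * 2) + 1)))).ev
    (ϖ := 1 / 2) (by norm_num)
  have fin : g ≤ t := by
    rw [ht]
    refine PNum.att hC.ne (fun s J F => capS_hered (fun s J F => qRot_hered _ _ _ _ _ _) s J F)
      (hρ.rot (v - y) hvy0 hvy1) fun δ hδ => ?_
    obtain ⟨J₂, hJ₂⟩ := Pool.S6K.exp_small (κ := δ) (C := 2) hδ (by norm_num)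
    obtain ⟨J₃, hJ₃⟩ := exists_nat_gt (20 / m0 + 4 / ε +
      (3 + 9 * Real.log 29 + 4 * ((1 + E) * N)) / y + 2 * N / D0)
    refine Clp.mono (J₂ := max J₂ J₃) (((k1.and k3).and k4).and k5) ?_
    rintro J hJ F A ⟨⟨⟨d1, ⟨dA, eb, nb, hfr⟩, d3⟩, d4⟩, d5⟩
    have hJδ := hJ₂ J ((le_max_left _ _).trans hJ)
    have hJr : 20 / m0 + 4 / ε + (3 + 9 * Real.log 29 + 4 * ((1 + E) * N)) / y + 2 * N / D0 < J :=
      hJ₃.trans_le (by exact_mod_cast (le_max_right _ _).trans hJ)
    have hl29 : 0 ≤ Real.log 29 := Real.log_nonneg (by norm_num)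
    have q1 : 0 < 20 / m0 := by positivity
    have q2 : 0 < 4 / ε := by positivity
    have q3 : 0 < (3 + 9 * Real.log 29 + 4 * ((1 + E) * N)) / (y : ℝ) := by positivity
    have q4 : 0 < 2 * (N : ℝ) / D0 := by positivity
    have r1 : 20 < m0 * J := by
      have : 20 / m0 < J := by linarith
      rw [div_lt_iff₀ hm00] at this
      linarith
    have r2 : 4 < ε * J := by
      have : 4 / ε < J := by linarith
      rw [div_lt_iff₀ hε0] at this
      linarith
    have r3 : 3 + 9 * Real.log 29 + 4 * ((1 + E) * N) < y * J := by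
      have : (3 + 9 * Real.log 29 + 4 * ((1 + E) * N)) / (y : ℝ) < J := by linarith
      rw [div_lt_iff₀ hy0] at this
      linarith
    have r4 : 2 * (N : ℝ) < D0 * J := by
      have : 2 * (N : ℝ) / D0 < J := by linarith
      rw [div_lt_iff₀ hD00] at this
      linarith
    have hJ0 : (0 : ℝ) < J := by linarith
    rcases d1 with d1 | ⟨-, e, n, ζ, h1, h2⟩
    · linarith
    obtain ⟨Pt, hPt⟩ : ∃ Pt, Pt = ⌊Q * J⌋₊ := ⟨_, rfl⟩
    obtain ⟨w, hw⟩ : ∃ w, w = ⌊(v : ℝ) * J⌋₊ := ⟨_, rfl⟩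
    obtain ⟨l, hl⟩ : ∃ l, l = ⌊(s - ε) * J⌋₊ := ⟨_, rfl⟩
    have hPtJ : Pt ≤ J := by rw [hPt]; exact hQJ J
    rw [← hl, ← hPt] at h1
    rw [← hl, ← hPt, ← hw] at h2
    obtain ⟨h', hh'⟩ : ∃ h', h' = ⌊m0 / 2 * J⌋₊ := ⟨_, rfl⟩
    obtain ⟨q, hq⟩ : ∃ q, q = ⌈m0 / 8 * J⌉₊ := ⟨_, rfl⟩
    have hq1 : m0 / 8 * J ≤ q := by rw [hq]; exact Nat.le_ceil _
    have hq2 : (q : ℝ) < m0 / 8 * J + 1 := by
      rw [hq]
      exact Nat.ceil_lt_add_one (by positivity)
    have hh1 : (h' : ℝ) ≤ m0 / 2 * J := by rw [hh']; exact Nat.floor_le (by positivity)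
    have hm0J : m0 * J ≤ J := by
      calc m0 * J ≤ 1 * J := mul_le_mul_of_nonneg_right hm01 hJ0.le
        _ = J := one_mul _
    have hqJ : q ≤ J := by
      have : (q : ℝ) ≤ J := by linarith
      exact_mod_cast this
    have g1 : h' + q + 4 ≤ l := by
      rw [hl]
      refine Nat.le_floor ?_
      push_cast
      have : m0 * J ≤ (s - ε) * J := mul_le_mul_of_nonneg_right hm0s hJ0.le
      linarith
    have g2 : h' + q + 4 ≤ ⌊h₁ * J⌋₊ := by
      refine Nat.le_floor ?_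
      push_cast
      have : m0 * J ≤ h₁ * J := mul_le_mul_of_nonneg_right hm0h hJ0.le
      linarith
    obtain ⟨B, hB, hPB, hBs⟩ := d3 q hqJ hq1 (by omega)
    have hPB' : 1 / 2 * Pe F.p A ≤ Pe F.p B := by
      refine le_trans (le_of_eq ?_) hPB
      rw [Real.exp_neg, Real.exp_log (by norm_num)]
      norm_num
    have hB0 : 0 < Pe F.p B := lt_of_lt_of_le (by positivity) hPB'
    have hline := line_row hPtJ hB hBs hfr h1 g1 g2
    have hbd : ∀ ω, B ω → ∀ j, |e (Pool.KS6.ptq F Pt ω) j| ≤ 2 := by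
      intro ω hω j
      have a1 := slope_close hPtJ hB hBs hfr h1 g1 g2 ω hω j
      have a2 := hfr.bound ω (hB _ hω) j
      have a3 := inv_le_one (h' + 1)
      have := abs_sub_abs_le_abs_sub (e (Pool.KS6.ptq F Pt ω) j) (eb (Fam.pt F ω) j)
      linarith
    obtain ⟨e', n', ζ', hF⟩ := exists_frm (h1.sub hB) (fun ω hω => h2 ω (hB ω hω)) hbd
    obtain ⟨Pu, hPu⟩ : ∃ Pu, Pu = min Pt (l + w) := ⟨_, rfl⟩
    have hPu1 : Pu ≤ Pt := by rw [hPu]; exact min_le_left _ _
    have hPu2 : Pu ≤ l + w := by rw [hPu]; exact min_le_right _ _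
    -- the scales
    obtain ⟨u, hu⟩ : ∃ u, u = J / N := ⟨_, rfl⟩
    have hu1 : N * u ≤ J := by rw [hu]; exact Nat.mul_div_le J N
    have hu2 : (J : ℝ) < N * (u + 1) := by
      have := Nat.lt_mul_div_succ J hN0
      rw [← hu] at this
      exact_mod_cast this
    have hu1r : (N : ℝ) * u ≤ J := by exact_mod_cast hu1
    have hu0 : (0 : ℝ) ≤ u := Nat.cast_nonneg u
    have hwv : (w : ℝ) ≤ v * J := by
      rw [hw]
      refine Nat.floor_le ?_
      have : (0 : ℝ) < v := by linarith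
      positivity
    have hwv2 : (v : ℝ) * J < w + 1 := by rw [hw]; exact Nat.lt_floor_add_one _
    have hww : w ≤ vn * u + N := by
      have h3 : (v : ℝ) * J ≤ vn * u + N := by
        have h4 : (v : ℝ) * J ≤ v * (N * (u + 1)) :=
          mul_le_mul_of_nonneg_left hu2.le (by linarith)
        have h5 : (v : ℝ) * (N * (u + 1)) = vn * u + vn := by rw [hvN]; ring
        have h6 : (vn : ℝ) ≤ N := by exact_mod_cast hvnN
        linarith
      have : (w : ℝ) ≤ ((vn * u + N : ℕ) : ℝ) := by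
        push_cast
        linarith
      exact_mod_cast this
    have hlr : (s - ε) * J < l + 1 := by rw [hl]; exact Nat.lt_floor_add_one _
    have hjl : j * u + 2 ≤ l := by
      rw [hl]
      refine Nat.le_floor ?_
      push_cast
      have h3 : (j : ℝ) * u ≤ (s - 2 * ε) * N * u := mul_le_mul_of_nonneg_right hj1 hu0
      have h4 : (s - 2 * ε) * (N * u) ≤ (s - 2 * ε) * J :=
        mul_le_mul_of_nonneg_left hu1r hs2.le
      have h5 : (s - 2 * ε) * N * u = (s - 2 * ε) * (N * u) := by ring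
      have h6 : (s - 2 * ε) * J = (s - ε) * J - ε * J := by ring
      linarith
    -- fullness
    obtain ⟨f, nn, hlok⟩ := hF.lok hPtJ hPu1 hPu2
    have hfull := hF.full hPu1 hPu2 (E := y / 4 * J) (by positivity) hB0 (fun hwP =>
      d5 B hB hPB' w l f nn Unit _ _ _ _ _ hlok Pt (by omega) hPtJ)
    have hbox := box_win (N := N) (w' := vn * u) hww
      (hF.box (kw := min w Pt) (min_le_left _ _) (min_le_right _ _) hPu1 hPu2)
    have hlineU : LineU i₀ (1 / 2 ^ (j * u))
        (fun ω => lbl i₀ Pt (min w Pt) Pu l e' n' (Pool.KS6.ptq F Pt ω)) F.d B := by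
      refine (hF.line (min w Pt) Pu).mono ?_
      have h3 : (1 : ℝ) / 2 ^ l ≤ 1 / 2 ^ (j * u + 2) := inv_mono hjl
      have h4 : (1 : ℝ) / 2 ^ (j * u + 2) = 1 / 2 ^ (j * u) / 4 := by
        rw [pow_add]
        field_simp
        norm_num
      have h5 : (3 : ℝ) / 2 ^ l = 3 * (1 / 2 ^ l) := by ring
      have h6 : (0 : ℝ) < 1 / 2 ^ (j * u) := by positivity
      rw [h4] at h3
      rw [h5]
      linarith
    rw [hh'] at hline
    have key := d4 B hB hPB' (by rw [hPt] at hline; exact hline) _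
      (fun ω => lbl i₀ Pt (min w Pt) Pu l e' n' (Pool.KS6.ptq F Pt ω))
      (fun i => if i = 0 then min w Pt else Pu) Pt (by rw [hPt]) (by
        intro i
        by_cases hi : i = 0
        · rw [if_pos hi]
          exact min_le_right _ _
        · rw [if_neg hi]
          exact hPu1) ⟨lbl i₀ Pt (min w Pt) Pu l e' n', fun ω _ => by rw [hPt]; rfl⟩
      (by rw [← hu]; exact hbox) (by rw [← hu]; exact hlineU) (by
        rw [← hu]
        have hp0 := (isLaw_cond F.isLaw hB0).nonneg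
        have z1 : CH (Pool.Agent.H49.Ent.cond F.p B True)
            (fun ω => lbl i₀ Pt (min w Pt) Pu l e' n' (Pool.KS6.ptq F Pt ω))
            (fun ω => (F.X Pt ω, F.W ω)) = 0 := by
          refine CH_eq_zero hp0 fun ω ω' _ _ hc => ?_
          have : Pool.KS6.ptq F Pt ω = Pool.KS6.ptq F Pt ω' := hc
          rw [this]
        rw [z1]
        have z2 : full Pt (fun i : Fin 3 => if i = 0 then min w Pt else Pu) =
            ((Pt : ℝ) - (min w Pt : ℕ)) * Real.log 2 + 2 * (((Pt : ℝ) - Pu) * Real.log 2) := by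
          unfold full
          rw [Fin.sum_univ_three]
          simp only [if_true, show ¬ ((1 : Fin 3) = 0) by decide, show ¬ ((2 : Fin 3) = 0) by decide,
            if_false]
          ring
        rw [z2]
        have hlog : Real.log 2 ≤ 0.7 := by
          have := Real.log_two_lt_d9
          linarith
        have hlog0 : 0 < Real.log 2 := Real.log_pos one_lt_two
        have z3 : (Pt : ℝ) - Pu ≤ ε * J + E * J + 2 := by
          rcases le_total Pt (l + w) with hc | hc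
          · rw [hPu, min_eq_left hc, sub_self]
            positivity
          · rw [hPu, min_eq_right hc]
            push_cast
            have h3 : (Pt : ℝ) ≤ Q * J := by
              rw [hPt]
              refine Nat.floor_le ?_
              by_contra hneg
              push Not at hneg
              have h4 : Pt = 0 := by rw [hPt]; exact Nat.floor_of_nonpos hneg.le
              have h5 : 4 ≤ l := by omega
              omega
            have h4 : Q * J ≤ (v + s + E) * J := by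
              rw [← hs] at hQv
              exact mul_le_mul_of_nonneg_right hQv hJ0.le
            linarith
        have z4 : (0 : ℝ) ≤ (Pt : ℝ) - Pu := by
          have : (Pu : ℝ) ≤ Pt := by exact_mod_cast hPu1
          linarith
        have z5 : ((Pt : ℝ) - Pu) * Real.log 2 ≤ (ε * J + E * J + 2) * 0.7 :=
          mul_le_mul z3 hlog hlog0.le (by positivity)
        have z6 : ε * J ≤ y / 8 * J := mul_le_mul_of_nonneg_right hεy hJ0.le
        have z7 : ((yn * u : ℕ) : ℝ) ≤ y * J := by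
          push_cast
          rw [hyN, mul_assoc]
          exact mul_le_mul_of_nonneg_left hu1r hy0.le
        have z8 : ((yn * u : ℕ) : ℝ) * Real.log 2 ≤ y * J * 0.7 :=
          mul_le_mul z7 hlog hlog0.le (by positivity)
        have z9 : 4 * (y * J + E * J - (1 + E) * N) ≤ R / a * ((b * u : ℕ) : ℝ) := by
          have h3 : Cc * (y + E) * N * u ≤ ((b * u : ℕ) : ℝ) := by
            push_cast
            exact mul_le_mul_of_nonneg_right hb1 hu0
          have h4 : R / a * (Cc * (y + E) * N * u) ≤ R / a * ((b * u : ℕ) : ℝ) :=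
            mul_le_mul_of_nonneg_left h3 (by positivity)
          have h5 : R / a * (Cc * (y + E) * N * u) = 4 * ((y + E) * (N * u)) := by
            rw [← hCR]
            ring
          have h6 : (y : ℝ) * J + E * J - (1 + E) * N ≤ (y + E) * (N * u) := by
            have h7 : ((y : ℝ) + E) * J ≤ (y + E) * (N * (u + 1)) :=
              mul_le_mul_of_nonneg_left hu2.le hyE.le
            have h8 : ((y : ℝ) + E) * N ≤ (1 + E) * N :=
              mul_le_mul_of_nonneg_right (by linarith) hNr.le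
            have h9 : ((y : ℝ) + E) * (N * (u + 1)) = (y + E) * (N * u) + (y + E) * N := by ring
            linarith
          linarith
        have z10 : 0 ≤ E * J := mul_nonneg hE hJ0.le
        have h3c : ((3 : ℕ) : ℝ) = 3 := by norm_num
        rw [h3c]
        linarith)
    rw [← hu] at key
    refine ⟨B, hB, ?_, Or.inr ⟨by linarith, ?_⟩⟩
    · exact le_trans (mul_le_mul_of_nonneg_right hJδ (Pe_nonneg F.isLaw A)) hPB'
    · -- smaller precision, shorter windows
      have z1 : ⌊g * J⌋₊ ≤ (j - b) * u := by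
        have h3 : g * J ≤ (((j - b) * u : ℕ) : ℝ) := by
          push_cast [Nat.cast_sub hbj]
          have h4 : (g + D0 / 2) * N * u ≤ ((j : ℝ) - b) * u :=
            mul_le_mul_of_nonneg_right hjb hu0
          have h5 : (g + D0 / 2) * J ≤ (g + D0 / 2) * (N * (u + 1)) :=
            mul_le_mul_of_nonneg_left hu2.le (by positivity)
          have h6 : (g + D0 / 2) * N ≤ 1 * N :=
            mul_le_mul_of_nonneg_right (by linarith) hNr.le
          have h7 : (g + D0 / 2) * (N * (u + 1)) = (g + D0 / 2) * N * u + (g + D0 / 2) * N := by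
            ring
          have h8 : (g + D0 / 2) * J = g * J + D0 * J / 2 := by ring
          linarith
        exact (Nat.floor_le_floor h3).trans (Nat.floor_natCast _).le
      have z2 : (vn - yn) * u ≤ ⌊((v - y : ℚ) : ℝ) * J⌋₊ := by
        refine Nat.le_floor ?_
        push_cast [Nat.cast_sub hynvn]
        rw [hvN, hyN]
        have h3 : ((v : ℝ) - y) * (N * u) ≤ ((v : ℝ) - y) * J :=
          mul_le_mul_of_nonneg_left hu1r (by linarith)
        have h4 : ((v : ℝ) * N - y * N) * u = ((v : ℝ) - y) * (N * u) := by ring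
        linarith
      have z3 : ⌊((v - y : ℚ) : ℝ) * J⌋₊ ≤ J := by
        have h3 : ((v - y : ℚ) : ℝ) * J ≤ J := by
          push_cast
          have : ((v : ℝ) - y) * J ≤ 1 * J := mul_le_mul_of_nonneg_right (by linarith) hJ0.le
          linarith
        exact (Nat.floor_le_floor h3).trans (Nat.floor_natCast J).le
      have z4 : (1 : ℝ) / 2 ^ ((j - b) * u) ≤ 1 / 2 ^ ⌊g * J⌋₊ := inv_mono z1
      obtain ⟨e₁, n₁, ζ₁, h3, h4⟩ := key
      refine ⟨e₁, n₁, fun s => ζ₁ (s.1, s.2.1, s.2.2 / 2 ^ (⌊((v - y : ℚ) : ℝ) * J⌋₊ -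
        (vn - yn) * u)), fun ω hω k => (h3 ω hω k).trans z4, fun ω hω k => ?_⟩
      have h5 := h4 ω hω k
      rw [slam_coarse F z2 z3 ω] at h5
      exact h5.trans z4
  linarith

end Pool.S6C.Lbw
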