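import Pool.Agent.H26.LBW.Ci
import Pool.Agent.H26.DIC.Fam5
import Pool.Agent.H39.S6C.FulB

/-!
# The label of LBW

The label of the boxes together with the implicit label, as a function of the line and of the window
and as a function of the points of the row.
-/

set_option autoImplicit false

namespace Pool.S6C.Lbw

open Finset Real MvPolynomial
open Pool.Agent.H49.Ent Pool.Agent.H32.Dense Pool.STK Pool.KA Pool.KSAT Pool.K2S Pool.PB Pool.KS6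

variable {J : ℕ}

/-- The zoom of one line and one window. -/
theorem zm_slam0 {F : Fam 3 J} {w lam J' : ℕ} {i₀ : Fin 3} (hJ : w + J' ≤ J)
    {g : F.Ω → Fin 3 → ℝ} {ω ω' : F.Ω} (hs : slam F w ω' = slam F w ω) (hg : g ω' = g ω) :
    slam (Fam.zm F w J' hJ (Box.plkC lam i₀) g) 0 ω' =
      slam (Fam.zm F w J' hJ (Box.plkC lam i₀) g) 0 ω := by
  obtain ⟨b1, b2, b3, b4, b5⟩ := Pool.S6P.box_con F (lam := lam) (i0 := i₀) hs hg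
  have e1 : (Fam.zm F w J' hJ (Box.plkC lam i₀) g).l ω' =
      (Fam.zm F w J' hJ (Box.plkC lam i₀) g).l ω := by
    refine Prod.ext ?_ ?_
    · funext i
      change (⌊(2 : ℝ) ^ J' * (F.box w (Box.plkC lam i₀) g).u ω' i⌋ : ℝ) / 2 ^ J' =
        (⌊(2 : ℝ) ^ J' * (F.box w (Box.plkC lam i₀) g).u ω i⌋ : ℝ) / 2 ^ J'
      rw [b3]
    · funext i
      change (⌊(2 : ℝ) ^ J' * (F.box w (Box.plkC lam i₀) g).d ω' i⌋ : ℝ) / 2 ^ J' =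
        (⌊(2 : ℝ) ^ J' * (F.box w (Box.plkC lam i₀) g).d ω i⌋ : ℝ) / 2 ^ J'
      rw [b4]
  have e2 : ∀ ω, (Fam.zm F w J' hJ (Box.plkC lam i₀) g).T1 0 ω = 0 := by
    intro ω
    unfold Fam.T1
    rw [Nat.sub_zero]
    exact Nat.div_eq_of_lt ((Fam.zm F w J' hJ (Box.plkC lam i₀) g).tim ω)
  refine Prod.ext e1 (Prod.ext b5 ?_)
  change (Fam.zm F w J' hJ (Box.plkC lam i₀) g).T1 0 ω' =
    (Fam.zm F w J' hJ (Box.plkC lam i₀) g).T1 0 ω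
  rw [e2, e2]

/-- **The data of an implicit label of the boxes.** -/
theorem ciq_lab {F : Fam 3 J} {Qt w lam J' D P : ℕ} {i₀ : Fin 3} {A : F.Ω → Prop}
    (h : CIQ F Qt i₀ w lam J' D P A) (hA : ∃ ω, A ω) :
    ∃ (hJ : w + J' ≤ J) (g n : F.Ω → Fin 3 → ℝ) (i₁ : Fin 3) (V : Type) (zi : F.Ω → V)
      (R : V → MvPolynomial (Option (Fin 3)) ℝ) (P₁ : ℕ),
      (∀ ω, A ω → ∀ j, |g ω j| ≤ 4 ∧ |F.d ω j - n ω j - g ω j * F.d ω i₀| ≤ 6 / 2 ^ lam) ∧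
      (∃ φ : (Fin 3 → ℤ) × (ℕ × F.ζ) → (Fin 3 → ℝ) × (Fin 3 → ℝ), ∀ ω, A ω →
        (g ω, n ω) = φ (Pool.KS6.ptq F Qt ω)) ∧
      (∃ ψ : ((Fin 3 → ℝ) × (Fin 3 → ℝ)) × F.ζ × ℕ → Fin 3 → ℝ, ∀ ω, g ω = ψ (slam F w ω)) ∧
      (∃ ψ : ((Fin 3 → ℝ) × (Fin 3 → ℝ)) × F.ζ × ℕ → V, ∀ ω, A ω → zi ω = ψ (slam F w ω)) ∧
      (∃ φ : (Fin 3 → ℤ) × (ℕ × F.ζ) →
        (((ℕ × (Fin 3 → ℝ)) × ((Fin 3 → ℤ) × (Fin 3 → ℤ))) × F.ζ) × V, ∀ ω, A ω →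
        (F.blab w (Box.plkC lam i₀) g ω, zi ω) = φ (Pool.KS6.ptq F Qt ω)) ∧
      (∃ ψ : ((Fin 3 → ℝ) × (Fin 3 → ℝ)) × F.ζ × ℕ →
        (((ℕ × (Fin 3 → ℝ)) × ((Fin 3 → ℤ) × (Fin 3 → ℤ))) × F.ζ) × V, ∀ ω, A ω →
        (F.blab w (Box.plkC lam i₀) g ω, zi ω) = ψ (slam F w ω)) ∧
      P ≤ P₁ ∧ P₁ ≤ J' ∧ (∀ v, (R v).totalDegree ≤ D) ∧
      (∀ ω, A ω →
        eval (txg (Fam.zm F w J' hJ (Box.plkC lam i₀) g) i₁ P₁ ω) (pderiv none (R (zi ω))) ≠ 0 ∧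
        |eval (txg (Fam.zm F w J' hJ (Box.plkC lam i₀) g) i₁ P₁ ω) (R (zi ω))| ≤ 1 / 2 ^ P *
          |eval (txg (Fam.zm F w J' hJ (Box.plkC lam i₀) g) i₁ P₁ ω) (pderiv none (R (zi ω)))|) ∧
      Pool.S6C.Ful.Zfr F A i₀ Qt w lam J' hJ g n ∧
      (∃ φ : (Fin 3 → ℤ) × (ℕ × F.ζ) → V, ∀ ω, A ω → zi ω = φ (Pool.KS6.ptq F Qt ω)) ∧
      ∀ ω ω', A ω → A ω' → slam (Fam.zm F w J' hJ (Box.plkC lam i₀) g) 0 ω =
        slam (Fam.zm F w J' hJ (Box.plkC lam i₀) g) 0 ω' → zi ω = zi ω' := by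
  classical
  obtain ⟨ω₀, hω₀⟩ := hA
  obtain ⟨hJ, g, n, h1, h2, ⟨ψg, h3⟩, ⟨φp, h4⟩, i₁, P₁, V, z, z', R, hP1, hP2, h5, h6⟩ := h
  have hgs : ∀ ω ω', slam F w ω' = slam F w ω → g ω' = g ω := fun ω ω' hs => by
    rw [h3, h3 ω, hs]
  obtain ⟨zi, hzi⟩ : ∃ zi : F.Ω → V, zi = fun ω =>
      z (Pool.PB.ptr (Fam.zm F w J' hJ (Box.plkC lam i₀) g) J' ω) := ⟨_, rfl⟩
  have hzs : ∀ ω ω', A ω → A ω' → slam F w ω' = slam F w ω → zi ω' = zi ω := by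
    intro ω ω' hω hω' hs
    rw [hzi]
    beta_reduce
    rw [(h6 ω hω).1, (h6 ω' hω').1]
    exact congrArg z' (zm_slam0 hJ hs (hgs ω ω' hs))
  have hbs : ∀ ω ω', slam F w ω' = slam F w ω →
      F.blab w (Box.plkC lam i₀) g ω' = F.blab w (Box.plkC lam i₀) g ω := by
    intro ω ω' hs
    have e1 : F.l ω' = F.l ω := (Prod.ext_iff.1 hs).1
    have e2 := Prod.ext_iff.1 (Prod.ext_iff.1 hs).2
    exact (Box.blab_det F (C := Box.plkC lam i₀) e1 e2.2 (hgs ω ω' hs) e2.1).1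
  have hv : ∀ ω ω', A ω → A ω' → Pool.KS6.ptq F Qt ω' = Pool.KS6.ptq F Qt ω →
      (F.blab w (Box.plkC lam i₀) g ω', zi ω') = (F.blab w (Box.plkC lam i₀) g ω, zi ω) := by
    intro ω ω' hω hω' hp
    have e := (h4 ω' hω').trans ((congrArg φp hp).trans (h4 ω hω).symm)
    have e1 : F.blab w (Box.plkC lam i₀) g ω' = F.blab w (Box.plkC lam i₀) g ω :=
      (Prod.ext_iff.1 (Prod.ext_iff.1 e).2).2
    refine Prod.ext e1 ?_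
    rw [hzi]
    exact congrArg z e
  have i1 : Inhabited V := ⟨zi ω₀⟩
  have i2 : Inhabited ((((ℕ × (Fin 3 → ℝ)) × ((Fin 3 → ℤ) × (Fin 3 → ℤ))) × F.ζ) × V) :=
    ⟨(F.blab w (Box.plkC lam i₀) g ω₀, zi ω₀)⟩
  refine ⟨hJ, g, n, i₁, V, zi, R, P₁, h1, h2, ⟨ψg, h3⟩,
    Pool.S6P.exists_fn A (slam F w) zi hzs, ?_, ?_, hP1, hP2, h5, fun ω hω => ?_,
    ⟨h1, h2, ⟨ψg, h3⟩, ⟨φp, h4⟩⟩, Pool.S6P.exists_fn A (Pool.KS6.ptq F Qt) zi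
      (fun ω ω' hω hω' hp => (Prod.ext_iff.1 (hv ω ω' hω hω' hp)).2), fun ω ω' hω hω' hs => ?_⟩
  · exact Pool.S6P.exists_fn A (Pool.KS6.ptq F Qt)
      (fun ω => (F.blab w (Box.plkC lam i₀) g ω, zi ω)) hv
  · exact Pool.S6P.exists_fn A (slam F w)
      (fun ω => (F.blab w (Box.plkC lam i₀) g ω, zi ω)) (fun ω ω' hω hω' hs =>
        Prod.ext (hbs ω ω' hs) (hzs ω ω' hω hω' hs))
  · rw [hzi]
    exact (h6 ω hω).2
  · rw [hzi]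
    beta_reduce
    rw [(h6 ω hω).1, (h6 ω' hω').1, hs]

/-- The label of the boxes determines the line of directions. -/
theorem blab_line (F : Fam 3 J) (w lam : ℕ) (i₀ : Fin 3) (g : F.Ω → Fin 3 → ℝ) {V : Type}
    (zi : F.Ω → V) (A : F.Ω → Prop) :
    LineU i₀ (1 / 2 ^ lam) (fun ω => (F.blab w (Box.plkC lam i₀) g ω, zi ω)) F.d A := by
  refine ⟨fun s j => if j = i₀ then 1 else s.1.1.1.2 j,
    fun s j => if j = i₀ then 0 else (s.1.1.2.2 j : ℝ) / 2 ^ lam, fun ω _ j => ?_⟩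
  beta_reduce
  by_cases hj : j = i₀
  · subst hj
    rw [if_pos rfl, if_pos rfl]
    have : F.d ω j - 1 * F.d ω j - 0 = 0 := by ring
    rw [this, abs_zero]
    positivity
  · rw [if_neg hj, if_neg hj]
    have hl : (0 : ℝ) < 2 ^ lam := by positivity
    have e1 : (F.blab w (Box.plkC lam i₀) g ω).1.1.2 = g ω := rfl
    have e2 : (F.blab w (Box.plkC lam i₀) g ω).1.2.2 j =
        ⌊(2 : ℝ) ^ 0 * (2 ^ lam * (F.d ω j - g ω j * F.d ω i₀))⌋ := by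
      change ⌊(2 : ℝ) ^ 0 * pco lam i₀ (g ω) (F.d ω) j⌋ = _
      unfold pco
      rw [if_neg hj]
    rw [e1, e2, pow_zero, one_mul]
    have h1 := Int.floor_le ((2 : ℝ) ^ lam * (F.d ω j - g ω j * F.d ω i₀))
    have h2 := Int.lt_floor_add_one ((2 : ℝ) ^ lam * (F.d ω j - g ω j * F.d ω i₀))
    obtain ⟨x, hx⟩ : ∃ x, x = F.d ω j - g ω j * F.d ω i₀ := ⟨_, rfl⟩
    rw [← hx] at h1 h2 ⊢
    have e3 : x - (⌊(2 : ℝ) ^ lam * x⌋ : ℝ) / 2 ^ lam =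
        (2 ^ lam * x - (⌊(2 : ℝ) ^ lam * x⌋ : ℝ)) / 2 ^ lam := by field_simp
    rw [e3, abs_div, abs_of_pos hl]
    refine div_le_div_of_nonneg_right ?_ hl.le
    rw [abs_le]
    constructor <;> linarith

end Pool.S6C.Lbw
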