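import Pool.Agent.H42.S6C.Defs
import Pool.Agent.H5.K3.BoxA

/-!
# The count of LBW

`CntStmt`: the entropy of the label of one sample given the position of another sample of the same
line, for labels with an implicit equation in their box.
-/

set_option autoImplicit false

namespace Pool.S6C.Lbw

open Finset Real MvPolynomial
open Pool.Agent.H49.Ent Pool.Agent.H32.Dense Pool.STK Pool.KA Pool.KSAT Pool.K2S Pool.PB Pool.KS6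
open Pool.K3

/-- **(cnt)** -/
def CntStmt : Prop :=
  ∀ D : ℕ, ∃ C : ℝ, 0 ≤ C ∧ ∀ (J : ℕ) (F : Fam 3 J) (i₀ i₁ : Fin 3) (w lam J' Qt P y x : ℕ)
    (h : w + J' ≤ J) (g : F.Ω → Fin 3 → ℝ) (V : Type) (zi : F.Ω → V)
    (R : V → MvPolynomial (Option (Fin 3)) ℝ) (P₁ : ℕ) (e s : ℝ),
    (∀ ω, 0 < F.p ω → ∀ j, |g ω j| ≤ 4) →
    (∃ ψ : ((Fin 3 → ℝ) × (Fin 3 → ℝ)) × F.ζ × ℕ → Fin 3 → ℝ, ∀ ω, 0 < F.p ω →
      g ω = ψ (slam F w ω)) →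
    (∃ ψ : ((Fin 3 → ℝ) × (Fin 3 → ℝ)) × F.ζ × ℕ → V, ∀ ω, 0 < F.p ω → zi ω = ψ (slam F w ω)) →
    P ≤ P₁ → P₁ ≤ J' → y ≤ w → w + lam + J' ≤ Qt → Qt ≤ J → (∀ v, (R v).totalDegree ≤ D) →
    1 ≤ x → F.Tm e →
    (∀ ω, 0 < F.p ω →
      eval (txg (Fam.zm F w J' h (Box.plkC lam i₀) g) i₁ P₁ ω) (pderiv none (R (zi ω))) ≠ 0 ∧
      |eval (txg (Fam.zm F w J' h (Box.plkC lam i₀) g) i₁ P₁ ω) (R (zi ω))| ≤ 1 / 2 ^ P *
        |eval (txg (Fam.zm F w J' h (Box.plkC lam i₀) g) i₁ P₁ ω) (pderiv none (R (zi ω)))|) →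
    CH F.p (fun ω => (F.blab w (Box.plkC lam i₀) g ω, zi ω)) (fun ω => (F.X Qt ω, F.W ω)) ≤ s →
    CH (prs F (w - y)) (fun v => (F.blab w (Box.plkC lam i₀) g v.1, zi v.1))
      (fun v => ((F.X Qt v.2, F.W v.2), F.T v.1)) ≤
      (((Qt : ℝ) - w) + 2 * ((Qt : ℝ) - w - lam) - P + C * (y + x + 1)) * Real.log 2 -
      CH F.p (F.X Qt) (fun ω => ((F.blab w (Box.plkC lam i₀) g ω, zi ω), F.W ω)) +
      C * (e + 1) * (J + 1) / x + e + s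

end Pool.S6C.Lbw
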