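import Pool.Agent.H26.LBW.Lab
import Pool.Agent.H26.LBW.Stmt
import Pool.Agent.H39.S6C.Bct
import Pool.Agent.H39.S6C.Full
import Pool.Agent.H13.K2S.Zon

/-!
# LBW: no jump of the directions, with an implicit label

The class half: the number of positions near an implicit label (`CntStmt`), the fullness of the
positions (`full_cls`) and Lemma B.
-/

set_option autoImplicit false

namespace Pool.S6C.Lbw

open Finset Real MvPolynomial
open Pool.Agent.H49.Ent Pool.Agent.H32.Dense Pool.STK Pool.KA Pool.KSAT Pool.K2S Pool.PB Pool.KS6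
open Pool.K3 Pool.S6C.Bct

theorem floor_rat' (w : ℚ) (J : ℕ) : ⌊w * J⌋₊ = ⌊(w : ℝ) * J⌋₊ := by
  have h : (w : ℝ) * J = ((w * J : ℚ) : ℝ) := by push_cast; rfl
  rw [← Int.floor_toNat, ← Int.floor_toNat, h, Rat.floor_cast]

/-- Time deficits of the restrictions. -/
theorem tm_claim {S : PCl 3} {a R : ℝ} (ha : 1 ≤ a)
    (hst : ∀ (τ : ℝ) (J : ℕ) (F : Fam 3 J) (A : F.Ω → Prop), S.St τ J F A → Fam.Stt F a R τ A)
    {t : ℝ} (ht : 0 < t) :
    Clp S (fun J F A => ∃ hlaw : IsLaw (Pool.Agent.H49.Ent.cond F.p A True),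
      (F.res A True hlaw).Tm (t * J)) := by
  have hτ : 0 < t / ((1 + a) * 6) := by positivity
  refine Clp.base (t / ((1 + a) * 6)) hτ 0 fun J _ F A hS => ?_
  obtain ⟨hlaw, -, hMx, -⟩ := (hst _ _ _ _ hS).res ha hτ.le
  refine ⟨hlaw, ?_⟩
  have h1 : (F.res A True hlaw).Tm ((1 + a) * (6 * (t / ((1 + a) * 6))) * J) := hMx.1
  have e : (1 + a) * (6 * (t / ((1 + a) * 6))) = t := by field_simp
  rwa [e] at h1

/-- The numbers. -/
theorem nums {Cn y x₀ t : ℝ} (hCn : 0 ≤ Cn) (hy : 0 < y) (hx₀ : x₀ = y / (4 * (Cn + 1)))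
    (ht : t = x₀ * y / (64 * (Cn + 1))) {J x : ℝ} (hx1 : x ≤ x₀ * J) (hx2 : x₀ * J < x + 1)
    (hJ1 : 1 ≤ J) (hJ2 : 2 ≤ x₀ * J) :
    Cn * (t * J + 1) * (J + 1) / x ≤ y / 16 * J + 4 * Cn / x₀ ∧ Cn * x ≤ y / 4 * J ∧
      t ≤ y / 64 * x₀ := by
  have hC1 : 0 < Cn + 1 := by linarith only [hCn]
  have hx₀0 : 0 < x₀ := by rw [hx₀]; positivity
  have ht0 : 0 < t := by rw [ht]; positivity
  have hx : x₀ * J / 2 ≤ x := by linarith only [hx2, hJ2]
  have hxp : 0 < x := by
    have : 0 < x₀ * J := by positivity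
    linarith only [hx2, hJ2]
  have hJ0 : 0 < J := by linarith only [hJ1]
  refine ⟨?_, ?_, ?_⟩
  · rw [div_le_iff₀ hxp]
    have h1 : Cn * (t * J + 1) * (J + 1) ≤ Cn * (t * J + 1) * (2 * J) :=
      mul_le_mul_of_nonneg_left (by linarith only [hJ1]) (by positivity)
    have h2 : (y / 16 * J + 4 * Cn / x₀) * (x₀ * J / 2) ≤ (y / 16 * J + 4 * Cn / x₀) * x :=
      mul_le_mul_of_nonneg_left hx (by positivity)
    have h3 : Cn * (t * J + 1) * (2 * J) ≤ (y / 16 * J + 4 * Cn / x₀) * (x₀ * J / 2) := by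
      have e1 : (y / 16 * J + 4 * Cn / x₀) * (x₀ * J / 2) =
          (y * x₀ / 32 * J + 2 * Cn) * J := by
        field_simp
        ring
      have e2 : Cn * (t * J + 1) * (2 * J) = (2 * (Cn * t) * J + 2 * Cn) * J := by ring
      rw [e1, e2]
      refine mul_le_mul_of_nonneg_right ?_ hJ0.le
      have e3 : Cn * t ≤ x₀ * y / 64 := by
        rw [ht]
        have : Cn * (x₀ * y / (64 * (Cn + 1))) = x₀ * y / 64 * (Cn / (Cn + 1)) := by
          field_simp
        rw [this]
        have h4 : Cn / (Cn + 1) ≤ 1 := by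
          rw [div_le_one hC1]
          linarith only
        calc x₀ * y / 64 * (Cn / (Cn + 1)) ≤ x₀ * y / 64 * 1 :=
              mul_le_mul_of_nonneg_left h4 (by positivity)
          _ = _ := mul_one _
      have e4 := mul_le_mul_of_nonneg_right e3 hJ0.le
      linarith only [e4]
    linarith only [h1, h2, h3]
  · have h1 : Cn * x ≤ Cn * (x₀ * J) := mul_le_mul_of_nonneg_left hx1 hCn
    have h2 : Cn * x₀ ≤ y / 4 := by
      rw [hx₀]
      have : Cn * (y / (4 * (Cn + 1))) = y / 4 * (Cn / (Cn + 1)) := by field_simp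
      rw [this]
      have h4 : Cn / (Cn + 1) ≤ 1 := by
        rw [div_le_one hC1]
        linarith only
      calc y / 4 * (Cn / (Cn + 1)) ≤ y / 4 * 1 := mul_le_mul_of_nonneg_left h4 (by positivity)
        _ = _ := mul_one _
    have h3 := mul_le_mul_of_nonneg_right h2 hJ0.le
    linarith only [h1, h3]
  · rw [ht]
    rw [div_le_iff₀ (by positivity)]
    have : y / 64 * x₀ * (64 * (Cn + 1)) = x₀ * y * (Cn + 1) := by ring
    rw [this]
    nlinarith only [hCn, hx₀0, hy, mul_pos hx₀0 hy]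

/-- **(LBW)** for the rows of a class. -/
theorem lb_main (hcnt : CntStmt) (D' : ℕ) : ∃ Cn : ℝ, 0 ≤ Cn ∧
    ∀ (S : PCl 3) (a R h₁ : ℝ) (i₀ : Fin 3) (c s₂ : ℝ) (r : ℝ → ℝ) (D : Set ℝ) (σ : ℝ → Row),
    Cs S a R h₁ i₀ c s₂ r D σ → ∀ (Q : ℝ), Q ≤ 1 → ∀ (ρ : Row), Rw S i₀ Q ρ →
    ∀ (e : ℝ) (v y : ℚ), 0 < e → 0 < y → y < v → v ≤ 1 → ∀ s : ℝ, s = ρ.rot v →
    (v : ℝ) + s + 2 * e ≤ Q → CI S i₀ Q v s D' (Q - v - s - e) →
    Pool.ZCL.AzH S a R h₁ i₀ Q s →
    s - a / R * (4 + 4 * Cn) * (y + e) ≤ ρ.rot (v - y) := by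
  classical
  obtain ⟨Cn, hCn0, hcn⟩ := hcnt D'
  refine ⟨Cn, hCn0, ?_⟩
  intro S a R h₁ i₀ c s₂ r D σ hC Q hQ1 ρ hρ e v y he hy hyv hv1 s hs hve hci hH
  have ha1 := hC.a1
  have hR0 := hC.R0
  have hy0 : (0 : ℝ) < y := by exact_mod_cast hy
  have hyv' : (y : ℝ) < v := by exact_mod_cast hyv
  have hv1' : (v : ℝ) ≤ 1 := by exact_mod_cast hv1
  have hv0 : 0 < v := hy.trans hyv
  have hvy0 : 0 ≤ v - y := by linarith only [hyv]
  have hvy1 : v - y ≤ 1 := by linarith only [hy, hv1]
  have hs1 : s ≤ 1 := by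
    rw [hs]
    exact num_le_cap hC.ne zero_le_one (hρ.rot v hv0.le hv1)
  obtain ⟨t, ht⟩ : ∃ t, t = ρ.rot (v - y) := ⟨_, rfl⟩
  have ht0 : 0 ≤ t := by
    rw [ht]
    exact num_nonneg hC.ne (hρ.rot _ hvy0 hvy1)
  obtain ⟨Cc, hCc⟩ : ∃ Cc, Cc = a / R * (4 + 4 * Cn) := ⟨_, rfl⟩
  have hCc0 : 0 < Cc := by rw [hCc]; positivity
  have hCR : R / a * Cc = 4 + 4 * Cn := by
    rw [hCc]
    field_simp
  rw [← ht, ← hCc]
  by_contra hcon
  push Not at hcon
  have hye : 0 < (y : ℝ) + e := by linarith only [he, hy0]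
  have hCy : 0 < Cc * (y + e) := by positivity
  have hs0 : 0 < s := by linarith
  exact by
   obtain ⟨g, hg⟩ : ∃ g, g = (t + (s - Cc * (y + e))) / 2 := ⟨_, rfl⟩
   have hgt : t < g := by rw [hg]; linarith only [hcon]
   have hg0 : 0 < g := by linarith only [ht0, hgt]
   obtain ⟨D0, hD0⟩ : ∃ D0, D0 = s - Cc * (y + e) - g := ⟨_, rfl⟩
   have hD00 : 0 < D0 := by rw [hD0, hg]; linarith only [hcon]
   obtain ⟨z₀, hz₀, hci'⟩ := ci_exact hci
   obtain ⟨z₁, hz₁, hfull'⟩ := Pool.S6C.Ful.full_cls hH (w := (v : ℝ)) (by linarith only [hy0, hyv'])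
     (by rw [max_eq_left hs0.le]; linarith only [he, hve]) (η := (y : ℝ) / 4) (by linarith only [hy0])
   obtain ⟨ζ, hζ⟩ : ∃ ζ : ℝ, ζ = min (min z₀ z₁) (min (D0 / 8) ((y : ℝ) / 8)) := ⟨_, rfl⟩
   have hζ0 : 0 < ζ := by
     rw [hζ]
     exact lt_min (lt_min hz₀ hz₁) (lt_min (by linarith only [hg, hgt, hD0]) (by linarith only [hy0]))
   have hζz₀ : ζ ≤ z₀ := by rw [hζ]; exact (min_le_left _ _).trans (min_le_left _ _)
   have hζz₁ : ζ ≤ z₁ := by rw [hζ]; exact (min_le_left _ _).trans (min_le_right _ _)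
   have hζD : ζ ≤ D0 / 8 := by rw [hζ]; exact (min_le_right _ _).trans (min_le_left _ _)
   have hζy : ζ ≤ y / 8 := by rw [hζ]; exact (min_le_right _ _).trans (min_le_right _ _)
   obtain ⟨m0, hm0⟩ : ∃ m0, m0 = min (s - ζ) h₁ := ⟨_, rfl⟩
   have hm00 : 0 < m0 := by
     rw [hm0]
     exact lt_min (by linarith only [ht0, hcon, hCy, hgt, hD0, hζD]) hC.h₁0
   have hm0s : m0 ≤ s - ζ := by rw [hm0]; exact min_le_left _ _
   have hm0h : m0 ≤ h₁ := by rw [hm0]; exact min_le_right _ _
   have hm01 : m0 ≤ 1 := by linarith only [hQ1, he, hve, hyv', hζ0, hζy, hm0s]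
   obtain ⟨K, hK⟩ := exists_nat_gt (16 / D0)
   obtain ⟨N, vn, yn, hKN, hN0, hvn, hyn⟩ := exists_grid hy hyv K
   have hNr : (0 : ℝ) < N := by exact_mod_cast hN0
   have hN16 : 16 < D0 * N := by
     have h1 : 16 / D0 < N := hK.trans_le (by exact_mod_cast hKN)
     rw [div_lt_iff₀ hD00] at h1
     linarith only [h1]
   exact by
    have hvN : (vn : ℝ) = v * N := by rw [hvn]; field_simp
    have hyN : (yn : ℝ) = y * N := by rw [hyn]; field_simp
    have hvnN : vn ≤ N := by
      have : (vn : ℝ) ≤ N := by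
        rw [hvN]
        nlinarith only [hv1']
      exact_mod_cast this
    have hynvn : yn ≤ vn := by
      have : (yn : ℝ) ≤ vn := by
        rw [hvN, hyN]
        exact mul_le_mul_of_nonneg_right hyv'.le hNr.le
      exact_mod_cast this
    obtain ⟨j, hj⟩ : ∃ j, j = ⌊(s - 2 * ζ) * N⌋₊ := ⟨_, rfl⟩
    obtain ⟨b, hb⟩ : ∃ b, b = ⌈Cc * (y + e) * N⌉₊ := ⟨_, rfl⟩
    have hs2 : 0 < s - 2 * ζ := by linarith only [ht0, hCy, hg, hgt, hD0, hζD]
    have hj1 : (j : ℝ) ≤ (s - 2 * ζ) * N := by rw [hj]; exact Nat.floor_le (by positivity)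
    have hj2 : (s - 2 * ζ) * N < j + 1 := by rw [hj]; exact Nat.lt_floor_add_one _
    have hb1 : Cc * (y + e) * N ≤ b := by rw [hb]; exact Nat.le_ceil _
    have hb2 : (b : ℝ) < Cc * (y + e) * N + 1 := by
      rw [hb]
      exact Nat.ceil_lt_add_one (by positivity)
    have hjb : (g + D0 / 2) * N ≤ (j : ℝ) - b := by
      have h1 : (s - 2 * ζ) * N - Cc * (y + e) * N = (g + D0 - 2 * ζ) * N := by
        rw [hD0]
        ring
      have h2 : (g + 3 / 4 * D0) * N ≤ (g + D0 - 2 * ζ) * N :=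
        mul_le_mul_of_nonneg_right (by linarith only [hζD]) hNr.le
      have h3 : (g + 3 / 4 * D0) * N = (g + D0 / 2) * N + D0 * N / 4 := by ring
      linarith only [hQ1, he, hve, hyv', ht0, hCy, hg, hD0, hζ0, hζD, hζy, hN16, hj2, hb2, h1, h2]
    have hbj : b ≤ j := by
      have : (b : ℝ) ≤ j := by
        have : 0 < (g + D0 / 2) * N := by positivity
        linarith only [hjb, this]
      exact_mod_cast this
    exact by
     have hjN : j < N := by
       have : (j : ℝ) < N := by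
         have h1 : (s - 2 * ζ) * N < 1 * N := mul_lt_mul_of_pos_right (by linarith only [hQ1, he, hve, hyv', hζ0, hζy]) hNr
         linarith only [hj1, h1]
       exact_mod_cast this
     have hbN : b < N := lt_of_le_of_lt hbj hjN
     have hQJ : ∀ J : ℕ, ⌊Q * J⌋₊ ≤ J := by
       intro J
       have : Q * J ≤ 1 * J := mul_le_mul_of_nonneg_right hQ1 (Nat.cast_nonneg J)
       rw [one_mul] at this
       exact (Nat.floor_le_floor this).trans (Nat.floor_natCast J).le
     obtain ⟨x₀, hx₀⟩ : ∃ x₀ : ℝ, x₀ = y / (4 * (Cn + 1)) := ⟨_, rfl⟩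
     obtain ⟨τt, hτt⟩ : ∃ τt : ℝ, τt = x₀ * y / (64 * (Cn + 1)) := ⟨_, rfl⟩
     have hx₀0 : 0 < x₀ := by rw [hx₀]; positivity
     have hτt0 : 0 < τt := by rw [hτt]; positivity
     have hx₀1 : x₀ ≤ 1 := by
       rw [hx₀, div_le_one (by positivity)]
       linarith only [hCn0, hyv', hv1', hζ0, hζy]
     -- the claims
     have k1 := hci' ζ hζ0 hζz₀
     obtain ⟨τ, hτ, J₁, hsp⟩ := spread_part hC.a1 hC.R0 hC.ub hC.st hC.lb
       (by positivity : 0 < m0 / 8)
     have k3 : Clp S (fun J F A => (0 < Pe F.p A ∧ Lb F i₀ ⌊h₁ * J⌋₊ A) ∧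
         ∀ q : ℕ, q ≤ J → m0 / 8 * J ≤ q → q + 2 ≤ ⌊h₁ * J⌋₊ →
           ∃ B : F.Ω → Prop, Sub B A ∧ Real.exp (-Real.log 2) * Pe F.p A ≤ Pe F.p B ∧
           ∀ ω, B ω → ∃ ω' ω'', B ω' ∧ B ω'' ∧ Fam.pt F ω' = Fam.pt F ω ∧
             Fam.pt F ω'' = Fam.pt F ω ∧ 1 / 2 ^ (q + 1) ≤ |F.d ω' i₀ - F.d ω'' i₀|) :=
       Clp.base τ hτ J₁ fun J hJ F A hS =>
         ⟨⟨lt_of_lt_of_le (Real.exp_pos _) (hC.st _ _ _ _ hS).2.2.2, hC.lb _ _ _ _ hS⟩,
           hsp J hJ F A hS⟩
     exact by
      have k4 := (clp_of_claim hC.st (lbq_thm 3 a R hC.a1.le hC.R0 hC.ub (m0 / 2) ((y : ℝ) / 4)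
        (by positivity) (by positivity) N i₀ j b (vn - yn) hbj hbN (by omega)
        (fun J => ⌊Q * J⌋₊) hQJ)).ev (ϖ := 1 / 2) (by norm_num)
      obtain ⟨τf, hτf, Jf, hff⟩ := hfull' ζ hζ0 hζz₁
      have k5 := (Clp.base (S := S) τf hτf Jf hff).ev (ϖ := 1 / 2) (by norm_num)
      have k6 := (tm_claim hC.a1.le hC.st hτt0).ev (ϖ := 1 / 2) (by norm_num)
      have fin : g ≤ t := by
        rw [ht]
        refine PNum.att hC.ne (fun s J F => capS_hered (fun s J F => qRot_hered _ _ _ _ _ _) s J F)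
          (hρ.rot (v - y) hvy0 hvy1) fun δ hδ => ?_
        obtain ⟨J₂, hJ₂⟩ := Pool.S6K.exp_small (κ := δ) (C := 2) hδ (by norm_num)
        obtain ⟨W0, hW0⟩ : ∃ W0 : ℝ, W0 = 16 * (4 + Cn * (N + 1) + 4 * Cn / x₀ +
          (4 + 4 * Cn) * ((1 + e) * N)) := ⟨_, rfl⟩
        have hW00 : 0 < W0 := by rw [hW0]; positivity
        obtain ⟨J₃, hJ₃⟩ := exists_nat_gt (40 / m0 + 4 / ζ + 4 / e + 2 / x₀ + W0 / y +
          2 * N / D0 + 1)
        refine Clp.mono (J₂ := max J₂ J₃) (((((k1.and k3).and k4).and k5)).and k6) ?_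
        rintro J hJ F A ⟨⟨⟨⟨d1, ⟨dA, eb, nb, hfr⟩, d3⟩, d4⟩, d5⟩, d6⟩
        have hJδ := hJ₂ J ((le_max_left _ _).trans hJ)
        have hJr : 40 / m0 + 4 / ζ + 4 / e + 2 / x₀ + W0 / y + 2 * N / D0 + 1 < J :=
          hJ₃.trans_le (by exact_mod_cast (le_max_right _ _).trans hJ)
        have q1 : 0 < 40 / m0 := by positivity
        have q2 : 0 < 4 / ζ := by positivity
        have q3 : 0 < 4 / e := by positivity
        have q4 : 0 < 2 / x₀ := by positivity
        have q5 : 0 < W0 / (y : ℝ) := by positivity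
        have q6 : 0 < 2 * (N : ℝ) / D0 := by positivity
        have r1 : 40 < m0 * J := by
          have : 40 / m0 < J := by linarith only [hJr, q2, q3, q4, q5, q6]
          rw [div_lt_iff₀ hm00] at this
          linarith only [this]
        have r2 : 4 < ζ * J := by
          have : 4 / ζ < J := by linarith only [hJr, q1, q3, q4, q5, q6]
          rw [div_lt_iff₀ hζ0] at this
          linarith only [this]
        have r3 : 4 < e * J := by
          have : 4 / e < J := by linarith only [hJr, q1, q2, q4, q5, q6]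
          rw [div_lt_iff₀ he] at this
          linarith only [this]
        have r4 : 2 < x₀ * J := by
          have : 2 / x₀ < J := by linarith only [hJr, q1, q2, q3, q5, q6]
          rw [div_lt_iff₀ hx₀0] at this
          linarith only [this]
        have r5 : W0 < y * J := by
          have : W0 / (y : ℝ) < J := by linarith only [hJr, q1, q2, q3, q4, q6]
          rw [div_lt_iff₀ hy0] at this
          linarith only [this]
        have r6 : 2 * (N : ℝ) < D0 * J := by
          have : 2 * (N : ℝ) / D0 < J := by linarith only [hJr, q1, q2, q3, q4, q5]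
          rw [div_lt_iff₀ hD00] at this
          linarith only [this]
        have hJ1 : (1 : ℝ) ≤ J := by linarith only [hJr, q1, q2, q3, q4, q5, q6]
        have hJ0 : (0 : ℝ) < J := by linarith only [hJr, q1, q2, q3, q4, q5, q6]
        obtain ⟨ω₀, hω₀⟩ : ∃ ω, A ω := by
          by_contra hno
          push Not at hno
          have : Pe F.p A = 0 := by
            unfold Pe
            refine Finset.sum_eq_zero fun ω _ => if_neg fun h => hno ω ?_
            simpa using h
          linarith only [dA, this]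
        rw [floor_rat'] at d1
        obtain ⟨Pt, hPt⟩ : ∃ Pt, Pt = ⌊Q * J⌋₊ := ⟨_, rfl⟩
        obtain ⟨w, hw⟩ : ∃ w, w = ⌊(v : ℝ) * J⌋₊ := ⟨_, rfl⟩
        obtain ⟨lam, hlam⟩ : ∃ lam, lam = ⌊(s - ζ) * J⌋₊ := ⟨_, rfl⟩
        obtain ⟨J', hJ'⟩ : ∃ J', J' = Pt - w - lam := ⟨_, rfl⟩
        obtain ⟨P, hP⟩ : ∃ P, P = ⌊(Q - v - s - e) * J⌋₊ := ⟨_, rfl⟩
        have hPtJ : Pt ≤ J := by rw [hPt]; exact hQJ J
        rw [← hPt, ← hw, ← hlam, ← hP, ← hJ'] at d1
        have d5' : ∀ B : F.Ω → Prop, Sub B A → 1 / 2 * Pe F.p A ≤ Pe F.p B →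
            ∀ (h : w + J' ≤ J) (g n : F.Ω → Fin 3 → ℝ), Pool.S6C.Ful.Zfr F B i₀ Pt w lam J' h g n →
            ∀ (V : Type) (z : F.Ω → V),
            (∃ φ : (Fin 3 → ℤ) × (ℕ × F.ζ) → V, ∀ ω, B ω → z ω = φ (Pool.KS6.ptq F Pt ω)) →
            (∀ ω ω', B ω → B ω' → slam (F.zm w J' h (Box.plkC lam i₀) g) 0 ω =
              slam (F.zm w J' h (Box.plkC lam i₀) g) 0 ω' → z ω = z ω') →
            (((Pt : ℝ) - w) + ((Pt : ℝ) - w - lam)) * Real.log 2 - y / 4 * J ≤
              CH (Pool.Agent.H49.Ent.cond F.p B True) (F.X Pt)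
                (fun ω => ((F.blab w (Box.plkC lam i₀) g ω, z ω), F.W ω)) := by
          subst hJ' hlam hw hPt
          exact d5
        have d4' := d4
        rw [← hPt] at d4'
        obtain ⟨hJJ, g', n', i₁, V, zi, R', P₁, f1, ⟨φg, f2⟩, ⟨ψg, f3⟩, ⟨ψz, f4⟩, ⟨φb, f5⟩,
          ⟨ψb, f6⟩, f7, f8, f9, f10, hzf, ⟨φz, f11⟩, f12⟩ := ciq_lab d1 ⟨ω₀, hω₀⟩
        -- scales
        have hQ0 : 0 < Q := by linarith only [he, hve, hyv', ht0, hcon, hCy, hζ0, hζy]
        have a1 : (Pt : ℝ) ≤ Q * J := by rw [hPt]; exact Nat.floor_le (by positivity)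
        have a2 : Q * J < Pt + 1 := by rw [hPt]; exact Nat.lt_floor_add_one _
        have hvr : (0 : ℝ) < v := by linarith only [hyv', hζ0, hζy]
        have a3 : (w : ℝ) ≤ v * J := by rw [hw]; exact Nat.floor_le (by positivity)
        have a4 : (v : ℝ) * J < w + 1 := by rw [hw]; exact Nat.lt_floor_add_one _
        have hsζ : 0 < s - ζ := by linarith only [ht0, hcon, hCy, hgt, hD0, hζD]
        have a5 : (lam : ℝ) ≤ (s - ζ) * J := by rw [hlam]; exact Nat.floor_le (by positivity)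
        have a6 : (s - ζ) * J < lam + 1 := by rw [hlam]; exact Nat.lt_floor_add_one _
        have a7 : (Q - v - s - e) * J < P + 1 := by rw [hP]; exact Nat.lt_floor_add_one _
        have a8 : w + lam ≤ Pt := by
          have : (w : ℝ) + lam ≤ Pt := by
            have h1 : (v : ℝ) * J + (s - ζ) * J ≤ (Q - 2 * e) * J := by
              rw [← add_mul]
              exact mul_le_mul_of_nonneg_right (by linarith only [hve, hζ0]) hJ0.le
            have h2 : (Q - 2 * e) * J = Q * J - 2 * (e * J) := by ring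
            linarith only [hQ1, he, hve, hyv', ht0, hCy, hg, hD0, hζ0, hζD, hζy, r3, a2, a3, a5, h1]
          exact_mod_cast this
        have a9 : w + lam + J' = Pt := by omega
        obtain ⟨h', hh'⟩ : ∃ h', h' = ⌊m0 / 2 * J⌋₊ := ⟨_, rfl⟩
        obtain ⟨q, hq⟩ : ∃ q, q = ⌈m0 / 8 * J⌉₊ := ⟨_, rfl⟩
        have hq1 : m0 / 8 * J ≤ q := by rw [hq]; exact Nat.le_ceil _
        have hq2 : (q : ℝ) < m0 / 8 * J + 1 := by
          rw [hq]
          exact Nat.ceil_lt_add_one (by positivity)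
        have hh1 : (h' : ℝ) ≤ m0 / 2 * J := by rw [hh']; exact Nat.floor_le (by positivity)
        have hm0J : m0 * J ≤ J := by
          calc m0 * J ≤ 1 * J := mul_le_mul_of_nonneg_right hm01 hJ0.le
            _ = J := one_mul _
        have hqJ : q ≤ J := by
          have : (q : ℝ) ≤ J := by linarith only [hQ1, he, hve, hyv', ht0, hCy, hg, hD0, hζ0, hζD, hζy, r1, hq2, hm0J]
          exact_mod_cast this
        have g0 : h' + q + 4 + 3 ≤ lam := by
          rw [hlam]
          refine Nat.le_floor ?_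
          push_cast
          have : m0 * J ≤ (s - ζ) * J := mul_le_mul_of_nonneg_right hm0s hJ0.le
          linarith only [hQ1, he, hve, hyv', ht0, hCy, hg, hD0, hζ0, hζD, hζy, r1, hq2, hh1, this]
        have g1 : h' + q + 4 ≤ lam - 3 := by omega
        have g2 : h' + q + 4 ≤ ⌊h₁ * J⌋₊ := by
          refine Nat.le_floor ?_
          push_cast
          have : m0 * J ≤ h₁ * J := mul_le_mul_of_nonneg_right hm0h hJ0.le
          linarith only [hQ1, he, hve, hyv', ht0, hCy, hg, hD0, hζ0, hζD, hζy, r1, hq2, hh1, this]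
        obtain ⟨B, hB, hPB, hBs⟩ := d3 q hqJ hq1 (by omega)
        have hPB' : 1 / 2 * Pe F.p A ≤ Pe F.p B := by
          refine le_trans (le_of_eq ?_) hPB
          rw [Real.exp_neg, Real.exp_log (by norm_num)]
          norm_num
        have hB0 : 0 < Pe F.p B := lt_of_lt_of_le (by positivity) hPB'
        have honl : OnL i₀ (1 / 2 ^ (lam - 3)) (Pool.KS6.ptq F Pt) F.d A
            (fun u => (φg u).1) (fun u => (φg u).2) := by
          intro ω hω j
          have b1 := (f1 ω hω j).2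
          have b2 := f2 ω hω
          dsimp only
          rw [← b2]
          have b3 : F.d ω j - g' ω j * F.d ω i₀ - n' ω j = F.d ω j - n' ω j - g' ω j * F.d ω i₀ := by
            ring
          dsimp only
          rw [b3]
          refine b1.trans ?_
          rw [div_le_div_iff₀ (by positivity) (by positivity), one_mul]
          have b4 : (2 : ℝ) ^ lam = 2 ^ (lam - 3) * 8 := by
            rw [show (8 : ℝ) = 2 ^ 3 by norm_num, ← pow_add]
            congr 1
            omega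
          rw [b4]
          have b5 : (0 : ℝ) < 2 ^ (lam - 3) := by positivity
          linarith only [b5]
        have hline := line_row hPtJ hB hBs hfr honl g1 g2
        -- the scales
        obtain ⟨u, hu⟩ : ∃ u, u = J / N := ⟨_, rfl⟩
        have hu1 : N * u ≤ J := by rw [hu]; exact Nat.mul_div_le J N
        have hu2 : (J : ℝ) < N * (u + 1) := by
          have := Nat.lt_mul_div_succ J hN0
          rw [← hu] at this
          exact_mod_cast this
        have hu1r : (N : ℝ) * u ≤ J := by exact_mod_cast hu1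
        have hu0 : (0 : ℝ) ≤ u := Nat.cast_nonneg u
        have hjl : j * u ≤ lam := by
          rw [hlam]
          refine Nat.le_floor ?_
          push_cast
          have h3 : (j : ℝ) * u ≤ (s - 2 * ζ) * N * u := mul_le_mul_of_nonneg_right hj1 hu0
          have h4 : (s - 2 * ζ) * (N * u) ≤ (s - 2 * ζ) * J :=
            mul_le_mul_of_nonneg_left hu1r hs2.le
          have h5 : (s - 2 * ζ) * N * u = (s - 2 * ζ) * (N * u) := by ring
          have h6 : (s - 2 * ζ) * J = (s - ζ) * J - ζ * J := by ring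
          linarith only [hQ1, he, hve, hyv', ht0, hCy, hg, hD0, hζ0, hζD, hζy, r2, h3, h4]
        have hyle : (vn - yn) * u ≤ w := by
          rw [hw]
          refine Nat.le_floor ?_
          push_cast [Nat.cast_sub hynvn]
          rw [hvN, hyN]
          have h3 : ((v : ℝ) - y) * (N * u) ≤ ((v : ℝ) - y) * J :=
            mul_le_mul_of_nonneg_left hu1r (by linarith only [hyv'])
          have h4 : ((v : ℝ) * N - y * N) * u = ((v : ℝ) - y) * (N * u) := by ring
          have h5 : ((v : ℝ) - y) * J = v * J - y * J := by ring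
          have h6 : 0 < (y : ℝ) * J := by positivity
          linarith only [hW00, r5, h3]
        obtain ⟨y', hy'⟩ : ∃ y', y' = w - (vn - yn) * u := ⟨_, rfl⟩
        have hy'w : y' ≤ w := by omega
        have hwy' : w - y' = (vn - yn) * u := by omega
        have hy'r : (y' : ℝ) ≤ y * J + N := by
          have h1 : (y' : ℝ) = w - ((vn - yn) * u : ℕ) := by
            rw [hy', Nat.cast_sub hyle]
          rw [h1]
          push_cast [Nat.cast_sub hynvn]
          rw [hvN, hyN]
          have h4 : ((v : ℝ) * N - y * N) * u = ((v : ℝ) - y) * (N * u) := by ring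
          have h5 : ((v : ℝ) - y) * (J - N) ≤ ((v : ℝ) - y) * (N * u) :=
            mul_le_mul_of_nonneg_left (by linarith only [hu2]) (by linarith only [hyv'])
          have h6 : ((v : ℝ) - y) * (J - N) = v * J - y * J - (v - y) * N := by ring
          have h7 : ((v : ℝ) - y) * N ≤ 1 * N := mul_le_mul_of_nonneg_right (by linarith only [hQ1, he, hve, ht0, hCy, hg, hD0, hζ0, hζD, hζy]) hNr.le
          linarith only [a3, h5, h7]
        obtain ⟨x, hx⟩ : ∃ x, x = ⌊x₀ * J⌋₊ := ⟨_, rfl⟩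
        have hx1 : (x : ℝ) ≤ x₀ * J := by rw [hx]; exact Nat.floor_le (by positivity)
        have hx2 : x₀ * J < x + 1 := by rw [hx]; exact Nat.lt_floor_add_one _
        have hx3 : 1 ≤ x := by
          rw [hx]
          refine Nat.le_floor ?_
          push_cast
          linarith only [hQ1, he, hve, hyv', ht0, hCy, hg, hD0, hζ0, hζD, hζy, r4]
        -- the count
        obtain ⟨hlaw, hTm⟩ := d6 B hB hPB'
        have hA' : ∀ ω, 0 < (F.res B True hlaw).p ω → B ω := fun ω hω => by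
          have := ((cond_pos_iff F.isLaw.nonneg B True ω).1 hω).2
          simpa using this
        have hcount := hcn J (F.res B True hlaw) i₀ i₁ w lam J' Pt P y' x hJJ g' V zi R' P₁
          (τt * J) 0 (fun ω hω k => (f1 ω (hB _ (hA' ω hω)) k).1) ⟨ψg, fun ω _ => f3 ω⟩
          ⟨ψz, fun ω hω => f4 ω (hB _ (hA' ω hω))⟩ f7 f8 hy'w (by omega) hPtJ f9 hx3 hTm
          (fun ω hω => f10 ω (hB _ (hA' ω hω))) (by
            refine le_of_eq (CH_eq_zero (F.res B True hlaw).isLaw.nonneg fun ω ω' hω hω' hc => ?_)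
            have e1 := f5 ω (hB _ (hA' ω hω))
            have e2 := f5 ω' (hB _ (hA' ω' hω'))
            have e3 : Pool.KS6.ptq F Pt ω = Pool.KS6.ptq F Pt ω' := hc
            exact e1.trans ((congrArg φb e3).trans e2.symm))
        have hfl := d5' B hB hPB' hJJ g' n' (hzf.sub hB) V zi ⟨φz, fun ω hω => f11 ω (hB _ hω)⟩
          (fun ω ω' hω hω' hs => f12 ω ω' (hB _ hω) (hB _ hω') hs)
        rw [hwy'] at hcount
        have hfl' : (((Pt : ℝ) - w) + ((Pt : ℝ) - w - lam)) * Real.log 2 - y / 4 * J ≤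
          CH (F.res B True hlaw).p ((F.res B True hlaw).X Pt) (fun ω =>
            (((F.res B True hlaw).blab w (Box.plkC lam i₀) g' ω, zi ω),
              (F.res B True hlaw).W ω)) := hfl
        obtain ⟨Hf, hHf⟩ : ∃ Hf, Hf = CH (F.res B True hlaw).p ((F.res B True hlaw).X Pt) (fun ω =>
            (((F.res B True hlaw).blab w (Box.plkC lam i₀) g' ω, zi ω),
              (F.res B True hlaw).W ω)) := ⟨_, rfl⟩
        rw [← hHf] at hcount hfl'
        have hbound : CH (cpy (Pool.Agent.H49.Ent.cond F.p B True) (slam F ((vn - yn) * u)))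
            (fun w₁ : F.Ω × F.Ω => (F.blab w (Box.plkC lam i₀) g' w₁.1, zi w₁.1))
            (fun w₁ => (ptm F Pt w₁.2, F.T w₁.1)) ≤ R / a * ((b * u : ℕ) : ℝ) - y / 4 * J := by
          have hlog : Real.log 2 ≤ 0.7 := by
            have := Real.log_two_lt_d9
            linarith only [hQ1, he, hve, hyv', ht0, hCy, hg, hD0, hζ0, hζD, hζy, this]
          have hlog0 : 0 < Real.log 2 := Real.log_pos one_lt_two
          obtain ⟨n1, n2, n3⟩ := nums hCn0 hy0 hx₀ hτt hx1 hx2 hJ1 r4.le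
          refine (le_trans (le_of_eq rfl) hcount).trans ?_
          have b1 : (Pt : ℝ) - w - lam - P ≤ (ζ + e) * J + 3 := by
            have e1 : Q * J - v * J - (s - ζ) * J - (Q - v - s - e) * J = (ζ + e) * J := by ring
            linarith only [a1, a4, a6, a7]
          have b2 : Cn * ((y' : ℝ) + x + 1) ≤ Cn * y * J + Cn * (N + 1) + y / 4 * J := by
            have e1 : Cn * (y' : ℝ) ≤ Cn * (y * J + N) := mul_le_mul_of_nonneg_left hy'r hCn0
            have e2 : Cn * ((y' : ℝ) + x + 1) = Cn * y' + Cn * x + Cn := by ring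
            rw [e2]
            linarith only [n2, e1]
          have b3 : ζ * J ≤ y / 8 * J := mul_le_mul_of_nonneg_right hζy hJ0.le
          obtain ⟨E1, hE1⟩ : ∃ E1, E1 = (y / 8 * J + e * J) + 3 + (Cn * y * J + Cn * (N + 1) +
            y / 4 * J) := ⟨_, rfl⟩
          have c1 : 0 ≤ (y : ℝ) * J := by positivity
          have c2 : 0 ≤ e * J := by positivity
          have c3 : 0 ≤ Cn * y * J := by positivity
          have c4 : 0 ≤ Cn * e * J := by positivity
          have c5 : 0 ≤ Cn * ((N : ℝ) + 1) := by positivity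
          have hE10 : 0 ≤ E1 := by rw [hE1]; linarith only [hQ1, he, hve, hyv', ht0, hCy, hg, hD0, hζ0, hζD, hζy, r2, r3, b3, c3, c5]
          have b4 : ((Pt : ℝ) - w - lam - P + Cn * (y' + x + 1)) * Real.log 2 ≤ E1 * 0.7 := by
            have e1 : (Pt : ℝ) - w - lam - P + Cn * (y' + x + 1) ≤ E1 := by
              rw [hE1]
              have : (ζ + e) * J = ζ * J + e * J := by ring
              linarith only [a1, a4, a6, a7, b2, b3]
            exact (mul_le_mul_of_nonneg_right e1 hlog0.le).trans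
              (mul_le_mul_of_nonneg_left hlog hE10)
          have b5 : τt * J ≤ y / 64 * J := by
            have e1 : y / 64 * x₀ ≤ y / 64 * 1 := mul_le_mul_of_nonneg_left hx₀1 (by positivity)
            rw [mul_one] at e1
            exact mul_le_mul_of_nonneg_right (n3.trans e1) hJ0.le
          have b6 : (4 + 4 * Cn) * (y + e) * J - (4 + 4 * Cn) * ((1 + e) * N) ≤
              R / a * ((b * u : ℕ) : ℝ) := by
            have h3 : Cc * (y + e) * N * u ≤ ((b * u : ℕ) : ℝ) := by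
              push_cast
              exact mul_le_mul_of_nonneg_right hb1 hu0
            have h4 : R / a * (Cc * (y + e) * N * u) ≤ R / a * ((b * u : ℕ) : ℝ) :=
              mul_le_mul_of_nonneg_left h3 (by positivity)
            have h5 : R / a * (Cc * (y + e) * N * u) = (4 + 4 * Cn) * ((y + e) * (N * u)) := by
              rw [← hCR]
              ring
            have h6 : ((y : ℝ) + e) * J - (1 + e) * N ≤ (y + e) * (N * u) := by
              have h7 : ((y : ℝ) + e) * J ≤ (y + e) * (N * (u + 1)) :=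
                mul_le_mul_of_nonneg_left hu2.le hye.le
              have h8 : ((y : ℝ) + e) * N ≤ (1 + e) * N :=
                mul_le_mul_of_nonneg_right (by linarith only [hQ1, he, hve, hyv', ht0, hCy, hg, hD0, hζ0, hζD]) hNr.le
              have h9 : ((y : ℝ) + e) * (N * (u + 1)) = (y + e) * (N * u) + (y + e) * N := by ring
              linarith only [h7, h8]
            have h7 := mul_le_mul_of_nonneg_left h6 (by positivity : 0 ≤ 4 + 4 * Cn)
            have h8 : (4 + 4 * Cn) * (((y : ℝ) + e) * J - (1 + e) * N) =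
                (4 + 4 * Cn) * (y + e) * J - (4 + 4 * Cn) * ((1 + e) * N) := by ring
            linarith only [h4, h5, h7]
          have b7 : (4 + 4 * Cn) * ((y : ℝ) + e) * J = 4 * (y * J) + 4 * (e * J) +
              4 * (Cn * y * J) + 4 * (Cn * e * J) := by ring
          have c6 : 0 ≤ 4 * Cn / x₀ := by positivity
          have c7 : 0 ≤ (4 + 4 * Cn) * ((1 + e) * N) := by positivity
          have b8 : (((Pt : ℝ) - w) + 2 * ((Pt : ℝ) - w - lam) - P + Cn * (y' + x + 1)) *
              Real.log 2 = (((Pt : ℝ) - w) + ((Pt : ℝ) - w - lam)) * Real.log 2 +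
              ((Pt : ℝ) - w - lam - P + Cn * (y' + x + 1)) * Real.log 2 := by ring
          rw [b8]
          rw [hW0] at r5
          rw [hE1] at b4
          linarith only [hQ1, he, hve, hyv', ht0, hCy, hg, hD0, hζ0, hζD, hζy, r3, r5, hfl', n1, c3, c4, c5, b4, b5, b6, c6, c7]
        have key := d4' B hB hPB' (by rw [hh'] at hline; exact hline) _
          (fun ω => (F.blab w (Box.plkC lam i₀) g' ω, zi ω))
          ⟨φb, fun ω hω => f5 ω (hB _ hω)⟩
          (by
            rw [← hu]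
            exact (blab_line F w lam i₀ g' zi B).mono (inv_mono hjl))
          (by rw [← hu]; exact hbound)
        rw [← hu] at key
        refine ⟨B, hB, ?_, Or.inr ⟨by linarith only [hQ1, he, hve, hyv', hCy, hD0, hζ0, hζD, hζy], ?_⟩⟩
        · exact le_trans (mul_le_mul_of_nonneg_right hJδ (Pe_nonneg F.isLaw A)) hPB'
        · have z1 : ⌊g * J⌋₊ ≤ (j - b) * u := by
            have h3 : g * J ≤ (((j - b) * u : ℕ) : ℝ) := by
              push_cast [Nat.cast_sub hbj]
              have h4 : (g + D0 / 2) * N * u ≤ ((j : ℝ) - b) * u :=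
                mul_le_mul_of_nonneg_right hjb hu0
              have h5 : (g + D0 / 2) * J ≤ (g + D0 / 2) * (N * (u + 1)) :=
                mul_le_mul_of_nonneg_left hu2.le (by positivity)
              have h6 : (g + D0 / 2) * N ≤ 1 * N :=
                mul_le_mul_of_nonneg_right (by linarith only [hQ1, he, hve, hyv', hCy, hD0, hζ0, hζD, hζy]) hNr.le
              have h7 : (g + D0 / 2) * (N * (u + 1)) = (g + D0 / 2) * N * u + (g + D0 / 2) * N := by
                ring
              have h8 : (g + D0 / 2) * J = g * J + D0 * J / 2 := by ring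
              linarith only [r6, h4, h5, h6]
            exact (Nat.floor_le_floor h3).trans (Nat.floor_natCast _).le
          have z2 : (vn - yn) * u ≤ ⌊((v - y : ℚ) : ℝ) * J⌋₊ := by
            refine Nat.le_floor ?_
            push_cast [Nat.cast_sub hynvn]
            rw [hvN, hyN]
            have h3 : ((v : ℝ) - y) * (N * u) ≤ ((v : ℝ) - y) * J :=
              mul_le_mul_of_nonneg_left hu1r (by linarith only [hyv'])
            have h4 : ((v : ℝ) * N - y * N) * u = ((v : ℝ) - y) * (N * u) := by ring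
            linarith only [h3]
          have z3 : ⌊((v - y : ℚ) : ℝ) * J⌋₊ ≤ J := by
            have h3 : ((v - y : ℚ) : ℝ) * J ≤ J := by
              push_cast
              have : ((v : ℝ) - y) * J ≤ 1 * J := mul_le_mul_of_nonneg_right (by linarith only [hQ1, he, hve, ht0, hCy, hg, hD0, hζ0, hζD, hζy]) hJ0.le
              linarith only [this]
            exact (Nat.floor_le_floor h3).trans (Nat.floor_natCast J).le
          have z4 : (1 : ℝ) / 2 ^ ((j - b) * u) ≤ 1 / 2 ^ ⌊g * J⌋₊ := inv_mono z1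
          rw [hPt] at key
          obtain ⟨e₁, n₁, ζ₁, h3, h4⟩ := key
          refine ⟨e₁, n₁, fun s => ζ₁ (s.1, s.2.1, s.2.2 / 2 ^ (⌊((v - y : ℚ) : ℝ) * J⌋₊ -
            (vn - yn) * u)), fun ω hω k => (h3 ω hω k).trans z4, fun ω hω k => ?_⟩
          have h5 := h4 ω hω k
          rw [slam_coarse F z2 z3 ω] at h5
          exact h5.trans z4
      linarith only [hcon, hg, fin]

end Pool.S6C.Lbw

namespace Pool.S6C

/-- **(LBW)** from the count. -/
theorem lbw_of (hcnt : Lbw.CntStmt) : LBWStmt := by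
  intro D' S a R h₁ i₀ c s₂ r D σ hC Q hQ hQ1 hQD hPl
  obtain ⟨Cn, hCn, h⟩ := Lbw.lb_main hcnt D'
  have hQ0 : 0 < Q := by linarith only [hQ]
  have ha := hC.a1
  have hR := hC.R0
  refine ⟨a / R * (4 + 4 * Cn), by positivity, fun e v he hv0 hv1 hrot hve hci y hy hyv => ?_⟩
  exact h S a R h₁ i₀ c s₂ r D σ hC Q hQ1 (σ Q) (hC.row Q hQ0 hQ1 hQD) e v y he hy hyv hv1
    (σ Q).pi hrot.symm hve hci (Pool.ZCL.AzH.of_cs hC hQ0 hQ1 hQD)

end Pool.S6C
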